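import Pool.Agent.K7.H9.SS.Sem

/-!
# Semisimplicity from Euler factors at primes of semistable reduction
-/

set_option autoImplicit false

namespace Pool.Agent.Results.MP_8f1292_ag.EulerFactorsAtBadPrimes

open NumberField IsDedekindDomain Module
open Pool.Agent.K7.H9.SS

/-- **Semisimplicity from finitely many Euler factors, at good and at semistable places.**

Let `ρ` be an `n`-dimensional continuous representation of the absolute Galois group of a number
field `F` over a finite extension `𝕂` of `ℚ_ℓ`, with a polarization of weight `w`. Let `T` be a set of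
at least three prime numbers `≠ ℓ`, unramified in `F`, such that at all places above the `p ∈ T` the
representation is semistable and satisfies the monodromy-weight conjecture (for instance good and
pure), with Euler factors `R v`; and let `ρ` be good at the places above at least one of these `p`.

If for every `0 < k ≤ n / 2` some `p ∈ T` has no isotropic relation of size `k` between the inverse
roots of the Euler factors, or if for one place `v` above some `p ∈ T` the inverse roots of the Euler
factor at `v` have pairwise different absolute values (equivalently: the Jordan blocks of the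
monodromy operator at `v` have pairwise different sizes), then `ρ` is semisimple. -/
theorem result {F : Type} [Field F] [NumberField F]
    (ℓ : ℕ) [Fact ℓ.Prime] {𝕂 : Type} [NormedField 𝕂] [NormedAlgebra ℚ_[ℓ] 𝕂]
    [FiniteDimensional ℚ_[ℓ] 𝕂] {n : ℕ} (ρ : Gal(AlgebraicClosure F/F) →* GL (Fin n) 𝕂)
    (hρ : Continuous ρ) (j : 𝕂 →+* ℂ) (w : ℤ)
    (R : HeightOneSpectrum (𝓞 F) → Multiset ℂ) (T : Set ℕ) (hT3 : 3 ≤ T.encard)
    (hT : ∀ p ∈ T, p.Prime ∧ p ≠ ℓ ∧ UnramifiedIn F p)
    (hR : ∀ p ∈ T, ∀ v, Above v p → PureAt ρ j w v (R v))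
    (hgood : ∃ p ∈ T, ∀ v, Above v p → ∀ a ∈ R v, ‖a‖ ^ 2 = (qq v : ℝ) ^ w)
    (hpol : Polarized ℓ ρ w)
    (hrel : (∀ k, 0 < k → 2 * k ≤ n → ∃ p ∈ T, ¬ IsotropicRelation R w p k) ∨
      ∃ p ∈ T, ∃ v, Above v p ∧ ∀ a b : ℂ, ({a, b} : Multiset ℂ) ≤ R v → ‖a‖ ≠ ‖b‖) :
    Semisimple ρ :=
  semisimple_of ℓ ρ hρ j w R T hT3 hT hR hgood hpol hrel

end Pool.Agent.Results.MP_8f1292_ag.EulerFactorsAtBadPrimes
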