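import Pool.Agent.K7.H8.Soc.Main

/-!
# Semisimplicity of a small part of one tensor power

Let `M` be a pure motive over the number field `F` and `V = M_p` its `p`-adic realization, of
dimension `d`.  The tensor power `V ^ ⊗ n` is the realization of the motive `M ^ ⊗ n` (a summand of
the cohomology of the `n`-th power of a variety).  If `V` is not semisimple, then the largest
semisimple subrepresentation (the socle) of `V ^ ⊗ n` is small: its dimension is at most

`soc d n = ∑ j, (n choose j) (d - 2) ^ (n - j) (j choose ⌊j / 2⌋) ≤ d ^ n √(d / (2 (n + 1)))`.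

Hence `V` is semisimple as soon as, for one `n ≥ 2 d`, the socle of `V ^ ⊗ n` is at least half of
`V ^ ⊗ n`; for larger `n` an arbitrarily small proportion of `V ^ ⊗ n` suffices.
-/

set_option autoImplicit false

namespace Pool.Agent.Results.MP_8f1292_ag.HalfOfATensorPower

open Pool.Agent.K7.H8.Soc Module

/-- If a continuous `p`-adic representation `V` of dimension `d` of the Galois group of a number field
is not semisimple, then for all `n` the socle of the tensor power `V ^ ⊗ n` has the dimension at most
`soc d n`, which is at most `d ^ n √(d / (2 (n + 1)))`. -/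
theorem result {F : Type*} [Field F] [NumberField F] {p : ℕ} [Fact p.Prime] {V : Type*}
    [AddCommGroup V] [Module ℚ_[p] V] [FiniteDimensional ℚ_[p] V]
    (ρ : Representation ℚ_[p] Gal(AlgebraicClosure F/F) V)
    (hρ : IsCts ρ) (hn : ¬ Semisimple ρ) (n : ℕ) :
    socleDim ρ n ≤ soc (finrank ℚ_[p] V) n ∧
      (soc (finrank ℚ_[p] V) n : ℝ) ≤
        (finrank ℚ_[p] V : ℝ) ^ n * √((finrank ℚ_[p] V : ℝ) / (2 * (n + 1))) :=
  ⟨(socle_le ρ hρ hn).2 n, soc_le (socle_le ρ hρ hn).1 n⟩

end Pool.Agent.Results.MP_8f1292_ag.HalfOfATensorPower
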