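import Pool.Agent.K7.H9.HT.Main
import Pool.Agent.K7.H9.AST.Main

/-!
# Semisimplicity over `ℚ` for all `ℓ` from the Hodge numbers
-/

set_option autoImplicit false

namespace Pool.Agent.Results.MP_8f1292_ag.HodgeNumbers

open NumberField IsDedekindDomain Module
open Pool.Agent.K7.H9.SS Pool.Agent.K7.H9.HT

/-- **Semisimplicity over `ℚ` for every `ℓ`, from the Hodge numbers and finitely many Euler factors.**

Let `ρ` be an `n`-dimensional continuous representation of the absolute Galois group of `ℚ` over a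
finite extension `𝕂` of `ℚ_ℓ`, with a polarization of weight `w`, which is Hodge-Tate at `ℓ` with the
weights `a 0, …, a (n - 1)` (for `H^w(X, ℚ_ℓ)`, `X` smooth and projective over `ℚ`, the weight `c`
occurs `h^(c, w - c)` times; Faltings). Let `T` be a set of at least three prime numbers `≠ ℓ` at
which `ρ` is good and pure of weight `w`, or semistable with the monodromy-weight property (but good
for at least one `p ∈ T`), with Euler factors `R`.

If for every `0 < k ≤ n / 2` there is no isotropic relation of size `k` between the weights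
(`IsotropicWeights`), or for some `p ∈ T` there is no isotropic relation of size `k` between the
inverse roots of the Euler factor (`IsotropicRelation`), then `ρ` is semisimple.

For example there is no relation between the weights if they are different and no nonempty sum
`∑ ± (c - w / 2)`, over different weights `c < w / 2` and with any signs, is zero. So
`H^w(X, ℚ_ℓ)` is semisimple for all `ℓ` if all Hodge numbers `h^(c, w - c)` are `0` or `1` and
`w ≤ 5`. If the Hodge numbers are larger, there are relations only for some `k`: for Calabi-Yau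
threefolds with `h^(2, 1) = 2` only for `k = 2`, so `H^3(X, ℚ_ℓ)` is semisimple for all `ℓ ≠ p` if at one
good prime `p` no quotient of two Frobenius eigenvalues is a root of unity.

Tate's theorem on the invariants of `ℂ_ℓ(m)`, which is used in the proof, is proved in the folder
`K7/H9/AST`. -/
theorem result (ℓ : ℕ) [Fact ℓ.Prime] {𝕂 : Type} [NormedField 𝕂] [NormedAlgebra ℚ_[ℓ] 𝕂]
    [FiniteDimensional ℚ_[ℓ] 𝕂] {n : ℕ} (ρ : Gal(AlgebraicClosure ℚ/ℚ) →* GL (Fin n) 𝕂)
    (hρ : Continuous ρ) (j : 𝕂 →+* ℂ) (w : ℤ)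
    (R : HeightOneSpectrum (𝓞 ℚ) → Multiset ℂ) (T : Set ℕ) (hT3 : 3 ≤ T.encard)
    (hT : ∀ p ∈ T, p.Prime ∧ p ≠ ℓ)
    (hR : ∀ p ∈ T, ∀ v, Above v p → PureAt ρ j w v (R v))
    (hgood : ∃ p ∈ T, ∀ v, Above v p → ∀ a ∈ R v, ‖a‖ ^ 2 = (qq v : ℝ) ^ w)
    (hpol : Polarized ℓ ρ w) (i : 𝕂 →ₐ[ℚ_[ℓ]] PadicComplex ℓ)
    (e : AlgebraicClosure ℚ →+* PadicComplex ℓ) (a : Fin n → ℤ)
    (hHT : HodgeTate ρ i e a)
    (hrel : ∀ k, 0 < k → 2 * k ≤ n →
      ¬ IsotropicWeights a w k ∨ ∃ p ∈ T, ¬ IsotropicRelation R w p k) :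
    Semisimple ρ :=
  semisimple_hodge ℓ ρ hρ j w R T hT3
    (fun p hp => ⟨(hT p hp).1, (hT p hp).2, unramifiedIn_rat (hT p hp).1⟩) hR hgood hpol
    (Pool.Agent.K7.H9.AST.tateTheorem i e) hHT hrel

end Pool.Agent.Results.MP_8f1292_ag.HodgeNumbers
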