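import Mathlib
import Pool.Agent.Y115.Final
import Pool.Agent.K7.H7.AS.Semi

/-!
# Semisimplicity at all primes `ℓ` from the Newton slopes at one prime `p`

Let `F` be a number field and `ρ` the action of its absolute Galois group on `H^w(X, ℚ_ℓ)`, `X` smooth and
projective over `F`, or on a self-dual part of it (a polarized representation over a finite extension of
`ℚ_ℓ`, with Frobenius polynomials `P v` over a number field). Let `p ≠ ℓ` be a prime number, unramified in
`F`, such that `ρ` is good at all places `v` above `p`; besides, we need two other primes of this kind, about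
which nothing has to be known.

**Theorem.** `ρ` is semisimple if for all `v` above `p` the polynomial `P v` has only simple roots, and these
are conjugates of Weil numbers `ϖ j`, `j ∈ J`, in CM fields `K j` with rigid Newton slopes, the fields being
pairwise independent.

The main example is that there is one place `v` above `p` (for instance `F = ℚ`) and `P v` is irreducible
over `ℚ`, or divides an irreducible polynomial: then there is one field `K = ℚ(ϖ)`, `P v (ϖ) = 0`, and
nothing is assumed on this field, on its Galois group and on the dimension of `ρ`.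

The slopes are *rigid*, if for some `b` and some `c ≠ 0` the slopes of `ϖ` at the complex embeddings of `K`
(for the valuation given by an isomorphism of the algebraic closure of `ℚ_p` with `ℂ`) are `(b ± c M) / 2`,
with plus signs at the embeddings in some CM type and integral weights `M`, invariant under complex
conjugation, which satisfy one of the following conditions (`IsRigid`); here `[K : ℚ] = 2 g`, so that
there are `g` weights. Up to a factor they are the distances of the slopes from the middle.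

* `dominant`: one weight is larger than the sum of the other weights: for some `φ₀` the sum of `|M φ|`
  over the embeddings `φ` different from `φ₀` and its conjugate is less than `2 |M φ₀|` (each weight
  occurs in this sum twice, for `φ` and its conjugate);
* `oneUnit`: for some prime number `l` and some `k` all weights are divisible by `l ^ k` and all but
  the one at `φ₀` (and its conjugate) by `l ^ (k + 1)`;
* `oneEven`: all weights are divisible by `2 ^ k`, the weight at `φ₀` is divisible by `2 ^ (k + 1)` and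
  the other weights are not, and `g` is even, or no sum of the `g` weights with signs vanishes, or `K`
  contains no imaginary quadratic field;
* `primePower`: `g` is a power of the prime number `l`, all weights are divisible by `l ^ k`, and no
  sum of the `g` weights with signs is divisible by `l ^ (k + 1)`.

For example, the motive of rank `2 g ≤ 6` and weight three with the slopes `0, 1, …, 1, 2, …, 2, 3`
(ordinary reduction of a Calabi-Yau threefold with `h^{2,1} ≤ 2`) has the weights `3, 1, …, 1`, which are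
dominant; the slopes `0, 1, …, 1, 2` (ordinary reduction of surfaces with `p_g = 1`, but also non-ordinary
reduction of other surfaces) have the weights `1, 0, …, 0`, which are dominant.

The proof. The weights are rigid, so that the sign functions of the types, multiplied by the weights,
satisfy no relations (`Pool.Agent.K7.H7.AS.nondeg`). Therefore every multiplicative relation between the
roots of the `P v`, `v` above `p`, is invariant under complex conjugation, and there is no relation between
the eigenvalues of the Frobenius elements on an isotropic subspace. By the starting library (`Y115`; the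
determinant of a subrepresentation is a locally algebraic character, by the theorem on six exponentials)
there would be such a relation if `ρ` were not semisimple.
-/

set_option autoImplicit false

namespace Pool.Agent.Results.MP_8f1292_ag.OneNewtonPolygon

open NumberField IsDedekindDomain Polynomial Matrix Module Pool.Agent.H204R3.CM Pool.Agent.H977R3.CM
  Pool.Agent.TH170 Pool.Agent.K7.H7.AS

section places
variable {F : Type} [Field F] [NumberField F]

/-- The place `v` of `F` lies above the prime number `p`. -/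
def Above (v : HeightOneSpectrum (𝓞 F)) (p : ℕ) : Prop := (p : 𝓞 F) ∈ v.asIdeal

variable (F) in
/-- The prime number `p` is unramified in `F`. -/
def UnramifiedIn (p : ℕ) : Prop :=
  ∀ v : HeightOneSpectrum (𝓞 F), Above v p → (p : 𝓞 F) ∉ v.asIdeal ^ 2

/-- `q v` is the number of elements of the residue field of `v`. -/
noncomputable abbrev q (v : HeightOneSpectrum (𝓞 F)) : ℕ := Ideal.absNorm v.asIdeal

/-- `Q` is a prime ideal above `v` of the ring of all algebraic integers in the algebraic
closure of `F`. -/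
def PrimeOver (Q : Ideal (𝓞 (AlgebraicClosure F))) (v : HeightOneSpectrum (𝓞 F)) : Prop :=
  Q.IsPrime ∧ Q.comap (algebraMap (𝓞 F) (𝓞 (AlgebraicClosure F))) = v.asIdeal

end places

section data
variable {F E : Type} [Field F] [NumberField F] [Field E] [NumberField E]
  {𝕂 : Type} [NormedField 𝕂] {n : ℕ}

/-- The matrix of `g`. -/
noncomputable def mat (ρ : Gal(AlgebraicClosure F/F) →* GL (Fin n) 𝕂) (g : Gal(AlgebraicClosure F/F)) :
    Matrix (Fin n) (Fin n) 𝕂 := (ρ g : GL (Fin n) 𝕂)

/-- The representation `ρ` is unramified at `v`, every geometric Frobenius element at `v` has the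
characteristic polynomial `P`, with coefficients in `E`, and `P` is pure of weight `w`. -/
structure GoodAt (ρ : Gal(AlgebraicClosure F/F) →* GL (Fin n) 𝕂) (τ : E →+* 𝕂) (ι : E →+* ℂ)
    (w : ℤ) (v : HeightOneSpectrum (𝓞 F)) (P : E[X]) : Prop where
  unramified : ∀ Q, PrimeOver Q v → ∀ g : Gal(AlgebraicClosure F/F),
    (∀ x : 𝓞 (AlgebraicClosure F), g • x - x ∈ Q) → ρ g = 1
  frobenius : ∀ Q, PrimeOver Q v → ∀ g : Gal(AlgebraicClosure F/F),
    (∀ x : 𝓞 (AlgebraicClosure F), g • x - x ^ q v ∈ Q) → (mat ρ g⁻¹).charpoly = P.map τ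
  pure : ∀ a ∈ (P.map ι).roots, ‖a‖ ^ 2 = (q v : ℝ) ^ w

/-- `W` is stable under the Galois group. -/
def Stable (ρ : Gal(AlgebraicClosure F/F) →* GL (Fin n) 𝕂) (W : Submodule 𝕂 (Fin n → 𝕂)) :
    Prop := ∀ g, ∀ x ∈ W, mat ρ g *ᵥ x ∈ W

/-- Every stable subspace has a stable complement. -/
def Semisimple (ρ : Gal(AlgebraicClosure F/F) →* GL (Fin n) 𝕂) : Prop :=
  ∀ W, Stable ρ W → ∃ W', Stable ρ W' ∧ IsCompl W W'

/-- There is a non-degenerate symmetric or alternating bilinear form, with matrix `J`, such that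
`(gx, gy) = χ(g) ^ (-w) (x, y)` for the `ℓ`-adic cyclotomic character `χ`. -/
def Polarized (ℓ : ℕ) [Fact ℓ.Prime] [NormedAlgebra ℚ_[ℓ] 𝕂]
    (ρ : Gal(AlgebraicClosure F/F) →* GL (Fin n) 𝕂) (w : ℤ) : Prop :=
  ∃ J : Matrix (Fin n) (Fin n) 𝕂, J.det ≠ 0 ∧ (Jᵀ = J ∨ Jᵀ = -J) ∧
    ∀ g : Gal(AlgebraicClosure F/F), (mat ρ g)ᵀ * J * mat ρ g =
      (algebraMap ℚ_[ℓ] 𝕂 (cyclotomicCharacter (AlgebraicClosure F) ℓ g : ℤ_[ℓ])) ^ (-w) • J

/-- The Newton slopes of the polynomials `P v`, `v` above `p`, are rigid: each `P v` has only simple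
roots, and these are of the form `φ (ϖ j)` for numbers `ϖ j` in pairwise independent CM fields `K j`,
`j ∈ J`, with `place j = v`; and for all `j` and a suitable CM type `Φ j` of `K j` the slopes of the
`φ (ϖ j)` are `(b j ± c j * M j φ) / 2`, with a plus sign for `φ` in `Φ j`, a real number `c j ≠ 0` and
rigid weights `M j`. -/
def RigidSlopes (P : HeightOneSpectrum (𝓞 F) → E[X]) (ι : E →+* ℂ) (p : ℕ) [Fact p.Prime]
    (ν : PadicAlgCl p ≃+* ℂ) {J : Type} (place : J → HeightOneSpectrum (𝓞 F)) (K : J → Type)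
    [∀ j, Field (K j)] [∀ j, NumberField (K j)] [∀ j, IsCMField (K j)] (ϖ : ∀ j, K j) : Prop :=
  (∀ v, Above v p → ((P v).map ι).roots.Nodup ∧ ∀ a ∈ ((P v).map ι).roots,
    ∃ (j : J) (φ : K j →+* ℂ), place j = v ∧ φ (ϖ j) = a) ∧ PairwiseIndep K ∧
  ∀ j, ∃ (M : (K j →+* ℂ) → ℤ) (Φ : Set (K j →+* ℂ)) (b c : ℝ), IsRigid M ∧ IsCMType Φ ∧ c ≠ 0 ∧
    (∀ φ, M (ComplexEmbedding.conjugate φ) = M φ) ∧ GS.HasSlopes ν M Φ b c (ϖ j)

end data

/-- There is no relation between the eigenvalues of the Frobenius elements on an isotropic subspace. -/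
theorem no_relation {F E : Type} [Field F] [NumberField F] [Field E] [NumberField E]
    (P : HeightOneSpectrum (𝓞 F) → E[X]) (ι : E →+* ℂ) (w : ℤ) (p : ℕ) [Fact p.Prime]
    (hur : UnramifiedIn F p)
    (hpure : ∀ v, Above v p → ∀ a ∈ ((P v).map ι).roots, ‖a‖ ^ 2 = (q v : ℝ) ^ w)
    (ν : PadicAlgCl p ≃+* ℂ) {J : Type} [Fintype J] (place : J → HeightOneSpectrum (𝓞 F))
    (K : J → Type) [∀ j, Field (K j)] [∀ j, NumberField (K j)] [∀ j, IsCMField (K j)]
    (ϖ : ∀ j, K j) (hrig : RigidSlopes P ι p ν place K ϖ) {k : ℕ} (hk : 0 < k) :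
    ¬ Pool.Agent.Y115.M.IsoR P ι w p k := by
  classical
  rintro ⟨A, hA, N, hN, hprod⟩
  obtain ⟨hroots, hind, hsl⟩ := hrig
  choose M Φ b c hR hΦ hc hM hs using hsl
  have hpp : p.Prime := Fact.out
  -- the places above `p`
  have hfin : {v : HeightOneSpectrum (𝓞 F) | (p : 𝓞 F) ∈ v.asIdeal}.Finite := by
    have h0 : (Ideal.span {(p : 𝓞 F)}) ≠ 0 := by
      rw [Ne, Ideal.zero_eq_bot, Ideal.span_singleton_eq_bot]
      exact_mod_cast hpp.ne_zero
    refine (Ideal.finite_factors h0).subset fun v hv => ?_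
    rw [Set.mem_ofPred_eq, Ideal.dvd_span_singleton]
    exact hv
  set S : Finset (HeightOneSpectrum (𝓞 F)) := hfin.toFinset with hS
  have hmem : ∀ v, v ∈ S ↔ (p : 𝓞 F) ∈ v.asIdeal := fun v => by
    rw [hS, Set.Finite.mem_toFinset]
    rfl
  obtain ⟨f, hf, hsum⟩ := Pool.Agent.Y115.T.sum_deg hpp hur S hmem
  have hSne : S.Nonempty := by
    rw [Finset.nonempty_iff_ne_empty]
    rintro h
    rw [h, Finset.sum_empty] at hsum
    exact (Module.finrank_pos (R := ℚ) (M := F)).ne hsum
  have hle : ∀ v, (p : 𝓞 F) ∈ v.asIdeal → A v ≤ ((P v).map ι).roots := fun v hv =>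
    (Multiset.le_add_right _ _).trans (hA v hv).2
  have hnod : ∀ v, (p : 𝓞 F) ∈ v.asIdeal → (A v).Nodup := fun v hv =>
    Multiset.nodup_of_le (hle v hv) (hroots v hv).1
  let Z : Type := Σ v : S, {a : ℂ // a ∈ (A v.1).toFinset}
  have hZ : ∀ z : Z, (p : 𝓞 F) ∈ z.1.1.asIdeal := fun z => (hmem _).1 z.1.2
  have hZA : ∀ z : Z, z.2.1 ∈ A z.1.1 := fun z => Multiset.mem_toFinset.1 z.2.2
  have hch : ∀ z : Z, ∃ (j : J) (φ : K j →+* ℂ), place j = z.1.1 ∧ φ (ϖ j) = z.2.1 := fun z =>
    (hroots _ (hZ z)).2 _ (Multiset.mem_of_le (hle _ (hZ z)) (hZA z))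
  choose jj ff hpl hev using hch
  let x : Z → Σ j, (K j →+* ℂ) := fun z => ⟨jj z, ff z⟩
  have hne0 : ∀ v, (p : 𝓞 F) ∈ v.asIdeal → ∀ a ∈ ((P v).map ι).roots, a ≠ 0 := by
    intro v hv a ha h0
    have h1 := hpure v hv a ha
    have hq0 : Ideal.absNorm v.asIdeal ≠ 0 := by
      rw [Ne, Ideal.absNorm_eq_zero_iff]
      exact v.ne_bot
    rw [h0, norm_zero, zero_pow two_ne_zero] at h1
    exact zpow_ne_zero w (Nat.cast_ne_zero.2 hq0) h1.symm
  -- a root at some place above `p`
  obtain ⟨v₀, hv₀⟩ := hSne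
  have hpv₀ := (hmem v₀).1 hv₀
  have hcard₀ : 0 < Multiset.card (A v₀) := by
    rw [(hA v₀ hpv₀).1]
    exact hk
  obtain ⟨a₀, ha₀⟩ := Multiset.card_pos_iff_exists_mem.1 hcard₀
  let z₀ : Z := ⟨⟨v₀, hv₀⟩, ⟨a₀, Multiset.mem_toFinset.2 ha₀⟩⟩
  have hϖ : ∀ z : Z, ϖ (jj z) ≠ 0 := by
    intro z h
    have h1 := hev z
    rw [h, map_zero] at h1
    exact hne0 _ (hZ z) _ (Multiset.mem_of_le (hle _ (hZ z)) (hZA z)) h1.symm
  -- the product
  have hP : (∏ᶠ (v : HeightOneSpectrum (𝓞 F)) (_ : (p : 𝓞 F) ∈ v.asIdeal), (A v).prod) =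
      ∏ z : Z, (x z).2 (ϖ (x z).1) := by
    have h1 : (∏ᶠ (v : HeightOneSpectrum (𝓞 F)) (_ : (p : 𝓞 F) ∈ v.asIdeal), (A v).prod) =
        ∏ v ∈ S, (A v).prod := by
      apply finprod_cond_eq_prod_of_cond_iff
      intro v _
      exact (hmem v).symm
    rw [h1, Fintype.prod_sigma, ← Finset.prod_coe_sort]
    refine Finset.prod_congr rfl fun v _ => ?_
    have h2 : (A v.1).prod = ∏ a ∈ (A v.1).toFinset, a := by
      rw [Finset.prod_eq_multiset_prod, Multiset.toFinset_val,
        Multiset.Nodup.dedup (hnod v.1 ((hmem v.1).1 v.2)), Multiset.map_id']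
    rw [h2, ← Finset.prod_coe_sort]
    refine Finset.prod_congr rfl fun a _ => ?_
    exact (hev ⟨v, a⟩).symm
  have hr : (∏ z : Z, (x z).2 (ϖ (x z).1)) ^ (2 * N) =
      (((p : ℝ) ^ (w * k * finrank ℚ F * N) : ℝ) : ℂ) := by
    rw [← hP, hprod]
    push_cast
    rfl
  have hcount := count_conj_of_prod hind hM hR hΦ hc ν ϖ hs x hϖ (2 * N) (by omega) _ hr (x z₀)
  have hlow : (1 : ℝ) ≤ ∑ z, if x z = x z₀ then (1 : ℝ) else 0 := by
    refine le_trans ?_ (Finset.single_le_sum (f := fun z => if x z = x z₀ then (1 : ℝ) else 0)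
      (fun z _ => ?_) (Finset.mem_univ z₀))
    · rw [if_pos rfl]
    · split_ifs
      · exact zero_le_one
      · exact le_rfl
  have hup : (∑ z, if x z = ⟨(x z₀).1, ComplexEmbedding.conjugate (x z₀).2⟩ then (1 : ℝ) else 0) =
      0 := by
    refine Finset.sum_eq_zero fun z _ => if_neg fun hz => ?_
    have hzv : z.1.1 = v₀ := by
      have h1 := congrArg (fun y : Σ j, (K j →+* ℂ) => place y.1) hz
      change place (jj z) = place (jj z₀) at h1
      rw [hpl, hpl] at h1
      exact h1
    have hza : z.2.1 = (starRingEnd ℂ) a₀ := by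
      have h1 := congrArg (fun y : Σ j, (K j →+* ℂ) => y.2 (ϖ y.1)) hz
      change ff z (ϖ (jj z)) = (starRingEnd ℂ) (ff z₀ (ϖ (jj z₀))) at h1
      rw [hev, hev] at h1
      exact h1
    have hcA : (starRingEnd ℂ) a₀ ∈ A v₀ := by
      rw [← hza, ← hzv]
      exact hZA z
    have har : a₀ ∈ ((P v₀).map ι).roots := Multiset.mem_of_le (hle _ hpv₀) ha₀
    have hn := hpure v₀ hpv₀ a₀ har
    have hinv : ((Ideal.absNorm v₀.asIdeal : ℂ) ^ w) / a₀ = (starRingEnd ℂ) a₀ := by
      rw [div_eq_iff (hne0 _ hpv₀ _ har), mul_comm, Complex.mul_conj, Complex.normSq_eq_norm_sq, hn]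
      push_cast
      rfl
    have hcM : (starRingEnd ℂ) a₀ ∈
        (A v₀).map (fun a => (Ideal.absNorm v₀.asIdeal : ℂ) ^ w / a) :=
      Multiset.mem_map.2 ⟨a₀, ha₀, hinv⟩
    have hd := (Multiset.nodup_add.1 (Multiset.nodup_of_le (hA v₀ hpv₀).2 (hroots v₀ hpv₀).1)).2.2
    exact Multiset.disjoint_left.1 hd hcA hcM
  rw [hup] at hcount
  rw [hcount] at hlow
  exact absurd hlow (by norm_num)

/-- **Semisimplicity at all primes `ℓ` from the Newton slopes at one prime `p`.**

Let `ρ` be an `n`-dimensional continuous representation of the absolute Galois group of a number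
field `F` over a finite extension `𝕂` of `ℚ_ℓ`, with a polarization. Let `T` be a set of at least
three prime numbers `≠ ℓ`, unramified in `F`, such that `ρ` is good and pure of weight `w` at all
places above the primes in `T`, with Frobenius polynomials `P v` over a number field `E` with embeddings
`τ : E → 𝕂` and `ι : E → ℂ`. (Example: `H^w(X, ℚ_ℓ)` for `X` smooth and projective over `F`, with
`E = ℚ`, or a self-dual part of it cut out by a projector with coefficients in `E`.)

If the Newton slopes of the polynomials `P v` at the places `v` above one prime `p` in `T` are rigid, then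
`ρ` is semisimple. -/
theorem result {F E : Type} [Field F] [NumberField F] [Field E] [NumberField E]
    (ℓ : ℕ) [Fact ℓ.Prime] {𝕂 : Type} [NormedField 𝕂] [NormedAlgebra ℚ_[ℓ] 𝕂]
    [FiniteDimensional ℚ_[ℓ] 𝕂] {n : ℕ} (ρ : Gal(AlgebraicClosure F/F) →* GL (Fin n) 𝕂)
    (hρ : Continuous ρ) (τ : E →+* 𝕂) (ι : E →+* ℂ) (w : ℤ)
    (P : HeightOneSpectrum (𝓞 F) → E[X]) (T : Set ℕ) (hT3 : 3 ≤ T.encard)
    (hT : ∀ p ∈ T, p.Prime ∧ p ≠ ℓ ∧ UnramifiedIn F p)
    (hP : ∀ p ∈ T, ∀ v, Above v p → GoodAt ρ τ ι w v (P v)) (hpol : Polarized ℓ ρ w)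
    (p : ℕ) [Fact p.Prime] (hp : p ∈ T) (ν : PadicAlgCl p ≃+* ℂ) {J : Type} [Finite J]
    (place : J → HeightOneSpectrum (𝓞 F)) (K : J → Type) [∀ j, Field (K j)]
    [∀ j, NumberField (K j)] [∀ j, IsCMField (K j)] (ϖ : ∀ j, K j)
    (hrig : RigidSlopes P ι p ν place K ϖ) : Semisimple ρ := by
  have := Fintype.ofFinite J
  have hgood := fun p hp v hv (Q : Ideal (𝓞 (AlgebraicClosure F))) hQ hQv =>
    And.intro ((hP p hp v hv).unramified Q ⟨hQ, hQv⟩) ((hP p hp v hv).frobenius Q ⟨hQ, hQv⟩)
  have hpure := fun p hp v hv => (hP p hp v hv).pure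
  obtain ⟨J', hJ, hsym, hJρ⟩ := hpol
  intro W hW
  refine Pool.Agent.Y115.M.compl_of ℓ ρ hρ w τ ι T hT3 hT P hgood hpure J' hJ hsym hJρ
    (fun k hk hkn => ?_) W hW
  exact ⟨p, hp, no_relation P ι w p (hT p hp).2.2 (hpure p hp) ν place K ϖ hrig hk⟩

end Pool.Agent.Results.MP_8f1292_ag.OneNewtonPolygon
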